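import Mathlib
import Pool.Agent.U798.GP.Spec

set_option autoImplicit false

/-!
Project GQ, package SWV: the part of the sawtooth function with frequencies prime to `B`.
-/

open MeasureTheory Filter Topology
open Pool.Agent.U798.BV
open scoped Real

namespace Pool.Agent.U941.GP

open Pool.Agent.U798.GP

/-! ### the exponential function and the sawtooth function -/

theorem e1_norm (x : ℝ) : ‖e1 x‖ = 1 := by
  unfold e1
  rw [show (2 * Real.pi * Complex.I * x : ℂ) = ((2 * Real.pi * x : ℝ) : ℂ) * Complex.I by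
    push_cast; ring, Complex.norm_exp_ofReal_mul_I]

theorem e1_add (x y : ℝ) : e1 (x + y) = e1 x * e1 y := by
  unfold e1
  rw [← Complex.exp_add]
  congr 1
  push_cast
  ring

theorem e1_int (n : ℤ) : e1 (n : ℝ) = 1 := by
  unfold e1
  rw [show (2 * (Real.pi : ℂ) * Complex.I * ((n : ℝ) : ℂ)) = n * (2 * Real.pi * Complex.I) by
    push_cast; ring]
  exact Complex.exp_int_mul_two_pi_mul_I n

theorem e1_add_int (x : ℝ) (n : ℤ) : e1 (x + n) = e1 x := by
  rw [e1_add, e1_int, mul_one]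

theorem e1_cont : Continuous e1 := by
  unfold e1
  fun_prop

theorem sw_meas : Measurable sw := by
  unfold sw
  exact measurable_fract.sub_const _

theorem sw_abs (t : ℝ) : |sw t| ≤ 1 / 2 := by
  unfold sw
  have h1 := Int.fract_nonneg t
  have h2 := (Int.fract_lt_one t).le
  rw [abs_le]
  constructor <;> linarith

theorem sw_add_int (t : ℝ) (n : ℤ) : sw (t + n) = sw t := by
  unfold sw
  rw [Int.fract_add_intCast]

theorem sw_add_one (t : ℝ) : sw (t + 1) = sw t := by
  have := sw_add_int t 1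
  simpa using this

theorem rc_sw (t : ℝ) : ContinuousWithinAt sw (Set.Ici t) t := by
  unfold sw
  refine ContinuousWithinAt.sub ?_ continuousWithinAt_const
  have h := continuousOn_fract (α := ℝ) ⌊t⌋
  have h1 : ContinuousWithinAt Int.fract (Set.Ico (⌊t⌋ : ℝ) (⌊t⌋ + 1)) t :=
    h t ⟨Int.floor_le t, Int.lt_floor_add_one t⟩
  refine h1.mono_of_mem_nhdsWithin ?_
  refine mem_nhdsWithin.2 ⟨Set.Iio ((⌊t⌋ : ℝ) + 1), isOpen_Iio, Int.lt_floor_add_one t, ?_⟩
  rintro y ⟨hy1, hy2⟩
  exact ⟨(Int.floor_le t).trans hy2, hy1⟩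

theorem rc_sw_mul (a : ℝ) (ha : 0 ≤ a) (t : ℝ) :
    ContinuousWithinAt (fun u : ℝ => sw (a * u)) (Set.Ici t) t := by
  have h1 : Set.MapsTo (fun u : ℝ => a * u) (Set.Ici t) (Set.Ici (a * t)) := fun u hu =>
    mul_le_mul_of_nonneg_left hu ha
  exact (rc_sw (a * t)).comp (continuous_const.mul continuous_id).continuousWithinAt h1

/-! ### Fourier coefficients -/

theorem ii_bdd (f : ℝ → ℂ) (hm : Measurable f) (B : ℝ) (hB : ∀ x, ‖f x‖ ≤ B) (a b : ℝ) :
    IntervalIntegrable f volume a b := by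
  rw [intervalIntegrable_iff]
  exact Measure.integrableOn_of_bounded (by
    rw [Set.uIoc]
    exact measure_Ioc_lt_top.ne) hm.aestronglyMeasurable (Eventually.of_forall hB)

theorem int_shift (f : ℝ → ℂ) (hf : Function.Periodic f 1) (a : ℝ) :
    ∫ u in (0 : ℝ)..1, f (u + a) = ∫ u in (0 : ℝ)..1, f u := by
  rw [intervalIntegral.integral_comp_add_right]
  have h := hf.intervalIntegral_add_eq a 0
  rw [zero_add] at h
  rw [zero_add, add_comm 1 a]
  exact h

theorem int_dil (f : ℝ → ℂ) (hf : Function.Periodic f 1)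
    (hi : ∀ t₁ t₂ : ℝ, IntervalIntegrable f volume t₁ t₂) (k : ℕ) (hk : 1 ≤ k) :
    ∫ u in (0 : ℝ)..1, f (k * u) = ∫ u in (0 : ℝ)..1, f u := by
  have hk0 : (k : ℝ) ≠ 0 := by
    have : k ≠ 0 := by omega
    exact_mod_cast this
  rw [intervalIntegral.integral_comp_mul_left _ hk0]
  have h' : ∫ x in (0 : ℝ)..(0 + (k : ℤ) • (1 : ℝ)), f x = (k : ℤ) • ∫ x in (0 : ℝ)..(0 + 1), f x :=
    hf.intervalIntegral_add_zsmul_eq k 0 hi
  simp only [zero_add, zsmul_eq_mul, Int.cast_natCast, mul_one] at h'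
  rw [mul_zero, mul_one, h']
  rw [Complex.real_smul]
  push_cast
  rw [← mul_assoc, inv_mul_cancel₀ (by exact_mod_cast hk0), one_mul]

theorem int_sw (m : ℤ) :
    ∫ u in (0 : ℝ)..1, e1 (-(m * u)) * ((sw u : ℝ) : ℂ) = -1 / (2 * π * Complex.I * m) := by
  have h1 : ∫ u in (0 : ℝ)..1, e1 (-(m * u)) * ((sw u : ℝ) : ℂ) =
      ∫ u in (0 : ℝ)..1, fourier (-m) (u : AddCircle ((1 : ℝ) - 0)) • ((bernoulliFun 1 u : ℝ) : ℂ) := by
    apply intervalIntegral.integral_congr_ae
    have : ∀ᵐ u : ℝ ∂volume, u ≠ 1 := by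
      exact (measure_eq_zero_iff_ae_notMem.1 (Real.volume_singleton (a := (1 : ℝ)))).mono (fun u hu => hu)
    filter_upwards [this] with u hu hu2
    rw [Set.uIoc_of_le zero_le_one] at hu2
    have hu3 : u < 1 := lt_of_le_of_ne hu2.2 hu
    have e1' : sw u = u - 1 / 2 := by
      unfold sw
      rw [Int.fract_eq_self.2 ⟨hu2.1.le, hu3⟩]
    have e2 : bernoulliFun 1 u = u - 1 / 2 := bernoulliFun_one u
    rw [e1', e2, smul_eq_mul]
    congr 1
    rw [fourier_coe_apply]
    unfold e1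
    congr 1
    push_cast
    ring
  have h2 := bernoulliFourierCoeff_eq (k := 1) one_ne_zero m
  unfold bernoulliFourierCoeff at h2
  rw [fourierCoeffOn_eq_integral] at h2
  rw [h1]
  simp only [sub_zero, div_one, one_smul, Nat.factorial_one, Nat.cast_one, pow_one] at h2 ⊢
  convert h2 using 1

theorem int_sw_mul (n : ℤ) (k : ℕ) (hk : 1 ≤ k) :
    ∫ u in (0 : ℝ)..1, e1 (-(n * u)) * ((sw (k * u) : ℝ) : ℂ) =
      if (k : ℤ) ∣ n then -(k : ℂ) / (2 * π * Complex.I * n) else 0 := by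
  have hk0 : (k : ℝ) ≠ 0 := by
    have : k ≠ 0 := by omega
    exact_mod_cast this
  split_ifs with h
  · obtain ⟨m, rfl⟩ := h
    have hkz : (k : ℤ) ≠ 0 := by omega
    have hper : Function.Periodic (fun u : ℝ => e1 (-(m * u)) * ((sw u : ℝ) : ℂ)) 1 := by
      intro u
      simp only
      rw [sw_add_one]
      congr 1
      have : -((m : ℝ) * (u + 1)) = -(m * u) + ((-m : ℤ) : ℝ) := by push_cast; ring
      rw [this, e1_add_int]
    have hi : ∀ t₁ t₂ : ℝ, IntervalIntegrable
        (fun u : ℝ => e1 (-(m * u)) * ((sw u : ℝ) : ℂ)) volume t₁ t₂ := by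
      intro t₁ t₂
      refine ii_bdd _ ?_ 1 (fun x => ?_) t₁ t₂
      · exact (e1_cont.measurable.comp (by fun_prop)).mul
          (Complex.measurable_ofReal.comp sw_meas)
      · rw [norm_mul, e1_norm, one_mul, Complex.norm_real, Real.norm_eq_abs]
        have := sw_abs x
        linarith
    have h1 := int_dil _ hper hi k hk
    rw [int_sw] at h1
    have h2 : ∫ u in (0 : ℝ)..1, e1 (-((((k : ℤ) * m : ℤ) : ℝ) * u)) * ((sw (k * u) : ℝ) : ℂ) =
        ∫ u in (0 : ℝ)..1, e1 (-(m * (k * u))) * ((sw (k * u) : ℝ) : ℂ) := by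
      apply intervalIntegral.integral_congr
      intro u _
      simp only
      congr 2
      push_cast
      ring
    rw [h2, h1]
    rcases eq_or_ne m 0 with hm | hm
    · subst hm
      simp
    · have hm0 : (m : ℂ) ≠ 0 := by exact_mod_cast hm
      have hkc : (k : ℂ) ≠ 0 := by exact_mod_cast hk0
      have hpi : (π : ℂ) ≠ 0 := by exact_mod_cast Real.pi_ne_zero
      push_cast
      field_simp
  · set I := ∫ u in (0 : ℝ)..1, e1 (-(n * u)) * ((sw (k * u) : ℝ) : ℂ) with hI
    have hper : Function.Periodic (fun u : ℝ => e1 (-(n * u)) * ((sw (k * u) : ℝ) : ℂ)) 1 := by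
      intro u
      simp only
      have e1' : (k : ℝ) * (u + 1) = (k * u) + ((k : ℤ) : ℝ) := by push_cast; ring
      rw [e1', sw_add_int]
      congr 1
      have : -((n : ℝ) * (u + 1)) = -(n * u) + ((-n : ℤ) : ℝ) := by push_cast; ring
      rw [this, e1_add_int]
    have h1 := int_shift _ hper (1 / k)
    rw [← hI] at h1
    have h2 : ∫ u in (0 : ℝ)..1, e1 (-(n * (u + 1 / k))) * ((sw (k * (u + 1 / k)) : ℝ) : ℂ) =
        e1 (-(n / k)) * I := by
      rw [hI, ← intervalIntegral.integral_const_mul]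
      apply intervalIntegral.integral_congr
      intro u _
      simp only
      have e1' : (k : ℝ) * (u + 1 / k) = (k * u) + 1 := by field_simp
      rw [e1', sw_add_one, ← mul_assoc, ← e1_add]
      congr 2
      ring
    rw [h2] at h1
    have h3 : e1 (-(n / k)) ≠ 1 := by
      intro hc
      unfold e1 at hc
      rw [Complex.exp_eq_one_iff] at hc
      obtain ⟨j, hj⟩ := hc
      apply h
      have hpi : (2 * (π : ℂ) * Complex.I) ≠ 0 := by
        simp [Real.pi_ne_zero]
      have h4 : ((-(n / k) : ℝ) : ℂ) = (j : ℂ) := by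
        apply mul_left_cancel₀ hpi
        rw [hj]
        ring
      have h5 : (-((n : ℝ) / k)) = (j : ℝ) := by exact_mod_cast h4
      have h6 : (n : ℝ) = (k : ℝ) * (-j : ℝ) := by
        field_simp at h5
        linarith
      exact ⟨-j, by exact_mod_cast h6⟩
    have h4 : (e1 (-(n / k)) - 1) * I = 0 := by
      rw [sub_mul, h1]; ring
    rcases mul_eq_zero.1 h4 with h5 | h5
    · exact absurd (sub_eq_zero.1 h5) h3
    · exact h5

/-! ### smooth numbers and the Moebius function -/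

theorem summable_inv (B : ℕ) (hB : 1 ≤ B) : Summable fun s : Sm B => (((s : ℕ) : ℝ))⁻¹ := by
  let f : ℕ →* ℝ :=
    { toFun := fun n => ((n : ℝ))⁻¹
      map_one' := by simp
      map_mul' := fun a b => by push_cast; rw [mul_inv] }
  have h := (EulerProduct.summable_and_hasSum_factoredNumbers_prod_filter_prime_geometric
    (f := f) (fun {p} hp => by
      show ‖((p : ℝ))⁻¹‖ < 1
      rw [norm_inv, Real.norm_natCast]
      exact inv_lt_one_of_one_lt₀ (by exact_mod_cast hp.one_lt)) B.primeFactors).1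
  have hS : (Sm B) = Nat.factoredNumbers B.primeFactors := by
    ext m
    simp only [Sm, Set.mem_ofPred_eq, Nat.factoredNumbers]
    constructor
    · rintro ⟨h1, h2⟩
      refine ⟨by omega, fun p hp => ?_⟩
      rw [Nat.mem_primeFactorsList (by omega)] at hp
      exact Nat.mem_primeFactors.2 ⟨hp.1, h2 p hp.1 hp.2, by omega⟩
    · rintro ⟨h1, h2⟩
      refine ⟨Nat.pos_of_ne_zero h1, fun p hp hd => ?_⟩
      exact (Nat.mem_primeFactors.1 (h2 p ((Nat.mem_primeFactorsList h1).2 ⟨hp, hd⟩))).2.1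
  rw [hS]
  refine h.congr fun m => ?_
  show ‖(((m : ℕ) : ℝ))⁻¹‖ = _
  rw [norm_inv, Real.norm_natCast]

theorem sum_mu (m : ℕ) : ∑ e ∈ m.divisors, (ArithmeticFunction.moebius e : ℤ) =
    if m = 1 then 1 else 0 := by
  rw [← ArithmeticFunction.coe_mul_zeta_apply, ArithmeticFunction.moebius_mul_coe_zeta,
    ArithmeticFunction.one_apply]

theorem sum_mu_dvd (B n : ℕ) (hB : 1 ≤ B) :
    ∑ e ∈ B.divisors, (if e ∣ n then ((ArithmeticFunction.moebius e : ℤ) : ℝ) else 0) =
      if Nat.gcd B n = 1 then 1 else 0 := by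
  rw [← Finset.sum_filter]
  have h1 : B.divisors.filter (fun e => e ∣ n) = (Nat.gcd B n).divisors := by
    ext e
    simp only [Finset.mem_filter, Nat.mem_divisors, Nat.dvd_gcd_iff, ne_eq]
    constructor
    · rintro ⟨⟨h1, h2⟩, h3⟩
      exact ⟨⟨h1, h3⟩, (Nat.gcd_pos_of_pos_left _ hB).ne'⟩
    · rintro ⟨⟨h1, h3⟩, -⟩
      exact ⟨⟨h1, by omega⟩, h3⟩
  rw [h1]
  have := sum_mu (Nat.gcd B n)
  split_ifs with h
  · rw [if_pos h] at this
    exact_mod_cast this
  · rw [if_neg h] at this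
    exact_mod_cast this

/-- the function `V` -/
noncomputable def VV (B : ℕ) (z : ℝ) : ℝ :=
  ∑ e ∈ B.divisors, ((ArithmeticFunction.moebius e : ℤ) : ℝ) / e * sw (e * z)

theorem hasSum_VV (B : ℕ) (hB : 1 ≤ B) (z : ℝ) :
    HasSum (fun s : Sm B => VV B (((s : ℕ) : ℝ) * z) / ((s : ℕ) : ℝ)) (sw z) := by
  set a : Sm B → ℝ := fun n => sw (((n : ℕ) : ℝ) * z) / ((n : ℕ) : ℝ) with ha
  set μ' : ℕ → ℝ := fun e => ((ArithmeticFunction.moebius e : ℤ) : ℝ) with hμ
  set f : ℕ → Sm B → ℝ := fun e n => if e ∣ (n : ℕ) then a n else 0 with hf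
  have hfs : ∀ e, Summable (f e) := by
    intro e
    refine Summable.of_norm_bounded (summable_inv B hB) fun n => ?_
    have hn0 : (0 : ℝ) < ((n : ℕ) : ℝ) := by exact_mod_cast n.2.1
    show ‖(if e ∣ (n : ℕ) then a n else 0)‖ ≤ _
    split_ifs
    · rw [ha]
      simp only
      rw [norm_div, Real.norm_eq_abs, Real.norm_natCast, div_eq_mul_inv]
      have := sw_abs (((n : ℕ) : ℝ) * z)
      have h2 : (0 : ℝ) ≤ (((n : ℕ) : ℝ))⁻¹ := by positivity
      nlinarith
    · rw [norm_zero]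
      positivity
  have hg : ∀ e ∈ B.divisors, ∀ s : Sm B, e * (s : ℕ) ∈ Sm B := by
    intro e he s
    have he' := Nat.mem_divisors.1 he
    have hs := s.2
    refine ⟨Nat.mul_pos (Nat.pos_of_dvd_of_pos he'.1 hB) hs.1, fun l hl hd => ?_⟩
    rcases (Nat.Prime.dvd_mul hl).1 hd with h | h
    · exact h.trans he'.1
    · exact hs.2 l hl h
  have h1 : ∀ e ∈ B.divisors, HasSum (fun s : Sm B =>
      sw ((e : ℝ) * (((s : ℕ) : ℝ) * z)) / ((e : ℝ) * ((s : ℕ) : ℝ))) (∑' n, f e n) := by
    intro e he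
    have he0 : 0 < e := Nat.pos_of_mem_divisors he
    let g : Sm B → Sm B := fun s => ⟨e * (s : ℕ), hg e he s⟩
    have hinj : Function.Injective g := by
      intro s t hst
      have h2 : e * (s : ℕ) = e * (t : ℕ) := congrArg Subtype.val hst
      exact Subtype.ext (Nat.eq_of_mul_eq_mul_left he0 h2)
    have h2 : ∀ x ∉ Set.range g, f e x = 0 := by
      intro x hx
      rw [hf]
      simp only
      rw [if_neg]
      rintro ⟨c, hc⟩
      apply hx
      have hx1 := x.2
      have hc0 : 1 ≤ c := by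
        rcases Nat.eq_zero_or_pos c with h | h
        · rw [h, mul_zero] at hc
          have := hx1.1
          omega
        · exact h
      refine ⟨⟨c, hc0, fun l hl hd => hx1.2 l hl (hc ▸ Dvd.dvd.mul_left hd e)⟩, ?_⟩
      exact Subtype.ext hc.symm
    have h3 := (hinj.hasSum_iff h2).2 (hfs e).hasSum
    convert h3 using 1
    funext s
    rw [hf, ha]
    simp only [Function.comp, g]
    rw [if_pos (Dvd.intro _ rfl)]
    push_cast
    rw [mul_assoc]
  have h2 : HasSum (fun s : Sm B => ∑ e ∈ B.divisors, μ' e *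
      (sw ((e : ℝ) * (((s : ℕ) : ℝ) * z)) / ((e : ℝ) * ((s : ℕ) : ℝ))))
      (∑ e ∈ B.divisors, μ' e * ∑' n, f e n) :=
    hasSum_sum fun e he => (h1 e he).mul_left _
  have h3 : HasSum (fun n : Sm B => ∑ e ∈ B.divisors, μ' e * f e n)
      (∑ e ∈ B.divisors, μ' e * ∑' n, f e n) :=
    hasSum_sum fun e _ => (hfs e).hasSum.mul_left _
  have one_mem : 1 ∈ Sm B := ⟨le_rfl, fun l hl hd => by
    rw [Nat.dvd_one] at hd
    exact absurd hd hl.one_lt.ne'⟩
  have h4 : ∀ n : Sm B, ∑ e ∈ B.divisors, μ' e * f e n =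
      if n = ⟨1, one_mem⟩ then sw z else 0 := by
    intro n
    have h5 : ∑ e ∈ B.divisors, μ' e * f e n =
        a n * ∑ e ∈ B.divisors, (if e ∣ (n : ℕ) then μ' e else 0) := by
      rw [Finset.mul_sum]
      refine Finset.sum_congr rfl fun e _ => ?_
      rw [hf]
      simp only
      split_ifs <;> ring
    rw [h5, sum_mu_dvd B n hB]
    by_cases hn : (n : ℕ) = 1
    · have : n = ⟨1, one_mem⟩ := Subtype.ext hn
      rw [if_pos this, if_pos (by rw [hn]; exact Nat.gcd_one_right B), mul_one, ha]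
      simp only
      rw [hn]
      simp
    · rw [if_neg (fun h => hn (congrArg Subtype.val h)), if_neg, mul_zero]
      intro hg1
      obtain ⟨l, hl, hd⟩ := Nat.exists_prime_and_dvd hn
      have := Nat.dvd_gcd (n.2.2 l hl hd) hd
      rw [hg1] at this
      exact hl.one_lt.ne' (Nat.dvd_one.1 this)
  have h5 : HasSum (fun n : Sm B => ∑ e ∈ B.divisors, μ' e * f e n) (sw z) := by
    rw [funext h4]
    exact hasSum_ite_eq _ _
  rw [h3.unique h5] at h2
  convert h2 using 1
  funext s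
  have hs0 : (((s : ℕ) : ℝ)) ≠ 0 := by
    have := s.2.1
    have h6 : ((s : ℕ)) ≠ 0 := by omega
    exact_mod_cast h6
  unfold VV
  rw [Finset.sum_div]
  refine Finset.sum_congr rfl fun e he => ?_
  have he0 : (e : ℝ) ≠ 0 := by
    have := Nat.pos_of_mem_divisors he
    exact_mod_cast this.ne'
  field_simp
  exact mul_comm _ _

theorem coef_VV (B : ℕ) (hB : 1 ≤ B) (n : ℤ) (hn : ¬ IsCoprime n (B : ℤ)) :
    (∫ u in (0 : ℝ)..1, e1 (-(n * u)) * (VV B u : ℂ)) = 0 := by
  have h1 : ∀ u : ℝ, e1 (-(n * u)) * (VV B u : ℂ) = ∑ e ∈ B.divisors,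
      ((((ArithmeticFunction.moebius e : ℤ) : ℝ) / e : ℝ) : ℂ) *
        (e1 (-(n * u)) * ((sw (e * u) : ℝ) : ℂ)) := by
    intro u
    unfold VV
    push_cast
    rw [Finset.mul_sum]
    refine Finset.sum_congr rfl fun e _ => ?_
    ring
  simp_rw [h1]
  rw [intervalIntegral.integral_finsetSum]
  · have h2 : ∀ e ∈ B.divisors, ∫ u in (0 : ℝ)..1,
        ((((ArithmeticFunction.moebius e : ℤ) : ℝ) / e : ℝ) : ℂ) *
        (e1 (-(n * u)) * ((sw (e * u) : ℝ) : ℂ)) =
        (-1 / (2 * π * Complex.I * n)) *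
          (((if e ∣ n.natAbs then ((ArithmeticFunction.moebius e : ℤ) : ℝ) else 0 : ℝ)) : ℂ) := by
      intro e he
      have he0 := Nat.pos_of_mem_divisors he
      have hec : (e : ℂ) ≠ 0 := by exact_mod_cast he0.ne'
      rw [intervalIntegral.integral_const_mul, int_sw_mul n e he0]
      by_cases hd : (e : ℤ) ∣ n
      · rw [if_pos hd, if_pos (Int.natCast_dvd.1 hd)]
        push_cast
        rcases eq_or_ne n 0 with h0 | h0
        · subst h0
          simp
        · have hn0 : (n : ℂ) ≠ 0 := by exact_mod_cast h0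
          have hpi : (π : ℂ) ≠ 0 := by exact_mod_cast Real.pi_ne_zero
          field_simp
      · rw [if_neg hd, if_neg (fun h => hd (Int.natCast_dvd.2 h))]
        simp
    rw [Finset.sum_congr rfl h2, ← Finset.mul_sum, ← Complex.ofReal_sum, sum_mu_dvd B _ hB,
      if_neg]
    · simp
    · intro hg
      apply hn
      rw [Int.isCoprime_iff_gcd_eq_one, Int.gcd_comm]
      simpa [Int.gcd] using hg
  · intro e he
    have he0 := Nat.pos_of_mem_divisors he
    refine IntervalIntegrable.const_mul (ii_bdd _ ?_ 1 (fun x => ?_) _ _) _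
    · exact (e1_cont.measurable.comp (by fun_prop)).mul
        (Complex.measurable_ofReal.comp (sw_meas.comp (by fun_prop)))
    · rw [norm_mul, e1_norm, one_mul, Complex.norm_real, Real.norm_eq_abs]
      have := sw_abs (e * x)
      linarith

theorem t_SWV : Pool.Agent.U798.GP.S_SWV := by
  intro B hB
  refine ⟨VV B, ?_, ⟨∑ e ∈ B.divisors, |((ArithmeticFunction.moebius e : ℤ) : ℝ) / e| * (1 / 2),
    fun t => ?_⟩, fun t => ?_, fun t => ?_, coef_VV B hB, hasSum_VV B hB⟩
  · unfold VV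
    exact Finset.measurable_sum _ fun e _ => (sw_meas.comp (by fun_prop)).const_mul _
  · unfold VV
    refine (Finset.abs_sum_le_sum_abs _ _).trans (Finset.sum_le_sum fun e _ => ?_)
    rw [abs_mul]
    exact mul_le_mul_of_nonneg_left (sw_abs _) (abs_nonneg _)
  · unfold VV
    refine Finset.sum_congr rfl fun e _ => ?_
    rw [show (e : ℝ) * (t + 1) = e * t + ((e : ℤ) : ℝ) by push_cast; ring, sw_add_int]
  · unfold VV
    exact tendsto_finsetSum _ fun e _ =>
      (rc_sw_mul e (Nat.cast_nonneg e) t).const_mul _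

end Pool.Agent.U941.GP
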